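import Mathlib
import Pool.Agent.Helper75.LatinC

set_option autoImplicit false

namespace Pool.Agent.Results.MP_90e87d_co.OddOrderIdentity

/-- The number of reduced Latin squares `L` of order `n` with `sgn L = s`.
A Latin square is given by the pair of its row permutations `p.1 i : j ↦ L(i,j)` and its column
permutations `p.2 j : i ↦ L(i,j)`; rows, columns and symbols are indexed by `Fin n`, the first one
being `0`.  The sign is the product of the signs of all rows and all columns. -/
def reducedCount (n : ℕ) (s : ℤˣ) : ℕ :=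
  ((Finset.univ : Finset ((Fin n → Equiv.Perm (Fin n)) × (Fin n → Equiv.Perm (Fin n)))).filter
    (fun p => (∀ i j : Fin n, p.1 i j = p.2 j i) ∧
      (∀ i j : Fin n, i.val = 0 → p.1 i j = j) ∧
      (∀ i j : Fin n, j.val = 0 → p.1 i j = i) ∧
      (∏ i : Fin n, Equiv.Perm.sign (p.1 i)) * (∏ j : Fin n, Equiv.Perm.sign (p.2 j)) = s)).card

/-- For every odd `n ≥ 3`,
`rels(n) - rols(n) = (n-2)! * (rels(n-1) - rols(n-1))`. -/
theorem result (n : ℕ) (hodd : Odd n) (hn : 3 ≤ n) :
    (reducedCount n 1 : ℤ) - (reducedCount n (-1) : ℤ) =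
      ((n - 2).factorial : ℤ) *
        ((reducedCount (n - 1) 1 : ℤ) - (reducedCount (n - 1) (-1) : ℤ)) := by
  obtain ⟨m, rfl⟩ : ∃ m, n = m + 2 := ⟨n - 2, by omega⟩
  have hev : Even (m + 1) := by
    obtain ⟨r, hr⟩ := hodd
    exact ⟨r, by omega⟩
  exact Pool.Agent.Helper75.LatinC.redCount_odd m hev

end Pool.Agent.Results.MP_90e87d_co.OddOrderIdentity
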