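import Mathlib
import Pool.Agent.Helper75.LatinD

set_option autoImplicit false

namespace Pool.Agent.Results.MP_90e87d_co.PrimeOrder

/-- The number of reduced Latin squares `L` of order `n` with `sgn L = s`.
A Latin square is given by the pair of its row permutations `p.1 i : j ↦ L(i,j)` and its column
permutations `p.2 j : i ↦ L(i,j)`; rows, columns and symbols are indexed by `Fin n`, the first one
being `0`.  The sign is the product of the signs of all rows and all columns. -/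
def reducedCount (n : ℕ) (s : ℤˣ) : ℕ :=
  ((Finset.univ : Finset ((Fin n → Equiv.Perm (Fin n)) × (Fin n → Equiv.Perm (Fin n)))).filter
    (fun p => (∀ i j : Fin n, p.1 i j = p.2 j i) ∧
      (∀ i j : Fin n, i.val = 0 → p.1 i j = j) ∧
      (∀ i j : Fin n, j.val = 0 → p.1 i j = i) ∧
      (∏ i : Fin n, Equiv.Perm.sign (p.1 i)) * (∏ j : Fin n, Equiv.Perm.sign (p.2 j)) = s)).card

/-- For every odd prime `p`, `rels(p) - rols(p) ≡ (-1)^((p+1)/2) (mod p)`, and in particular
`rels(p) ≠ rols(p)`. -/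
theorem result (p : ℕ) (hp : p.Prime) (h2 : p ≠ 2) :
    (reducedCount p 1 : ℤ) - (reducedCount p (-1) : ℤ) ≡ (-1) ^ ((p + 1) / 2) [ZMOD p] ∧
      reducedCount p 1 ≠ reducedCount p (-1) := by
  haveI : Fact p.Prime := ⟨hp⟩
  have hlt : 2 < p := lt_of_le_of_ne hp.two_le (Ne.symm h2)
  have h := Pool.Agent.Helper75.LatinD.redCount_prime (p := p) hlt
  have h1 : (reducedCount p 1 : ℤ) - (reducedCount p (-1) : ℤ) ≡ (-1) ^ ((p + 1) / 2) [ZMOD p] := by
    rw [← ZMod.intCast_eq_intCast_iff]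
    have h3 : ((((-1 : ℤ)) ^ ((p + 1) / 2) : ℤ) : ZMod p) = (-1) ^ ((p + 1) / 2) := by
      push_cast; rfl
    rw [h3]
    exact h
  refine ⟨h1, ?_⟩
  intro heq
  rw [heq, sub_self] at h1
  have h4 : ((p : ℤ)) ∣ (-1) ^ ((p + 1) / 2) := (Int.modEq_zero_iff_dvd.mp h1.symm)
  have h5 : ((p : ℤ)) ∣ 1 := by
    rcases neg_one_pow_eq_or ℤ ((p + 1) / 2) with h6 | h6
    · rwa [h6] at h4
    · rw [h6] at h4
      exact (dvd_neg.mp h4)
  have h6 : p ∣ 1 := by exact_mod_cast h5
  have := Nat.dvd_one.mp h6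
  omega

end Pool.Agent.Results.MP_90e87d_co.PrimeOrder
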