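import Mathlib
import Pool.Agent.Helper60.Latin.DriskoD

set_option autoImplicit false

namespace Pool.Agent.Results.MP_90e87d_co.PrimePlusTwo

/-- The number of reduced Latin squares `L` of order `n` with `sgn L = s`.
A Latin square is given by the pair of its row permutations `p.1 i : j ↦ L(i,j)` and its column
permutations `p.2 j : i ↦ L(i,j)`; rows, columns and symbols are indexed by `Fin n`, the first one
being `0`.  The sign is the product of the signs of all rows and all columns. -/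
def reducedCount (n : ℕ) (s : ℤˣ) : ℕ :=
  ((Finset.univ : Finset ((Fin n → Equiv.Perm (Fin n)) × (Fin n → Equiv.Perm (Fin n)))).filter
    (fun p => (∀ i j : Fin n, p.1 i j = p.2 j i) ∧
      (∀ i j : Fin n, i.val = 0 → p.1 i j = j) ∧
      (∀ i j : Fin n, j.val = 0 → p.1 i j = i) ∧
      (∏ i : Fin n, Equiv.Perm.sign (p.1 i)) * (∏ j : Fin n, Equiv.Perm.sign (p.2 j)) = s)).card

/-- For every odd prime `p`, `rels(p+2) - rols(p+2) ≡ (-1)^((p+1)/2) p! (mod p * p!)`, and in
particular `rels(p+2) ≠ rols(p+2)`. -/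
theorem result (p : ℕ) (hp : p.Prime) (h2 : p ≠ 2) :
    (reducedCount (p + 2) 1 : ℤ) - (reducedCount (p + 2) (-1) : ℤ) ≡
        (-1) ^ ((p + 1) / 2) * (p.factorial : ℤ) [ZMOD ((p : ℤ) * (p.factorial : ℤ))] ∧
      reducedCount (p + 2) 1 ≠ reducedCount (p + 2) (-1) := by
  haveI : Fact p.Prime := ⟨hp⟩
  have hev : Even (p + 1) := (hp.odd_of_ne_two h2).add_one
  have h1 : (reducedCount (p + 2) 1 : ℤ) - (reducedCount (p + 2) (-1) : ℤ) =
      (p.factorial : ℤ) * ((Pool.Agent.Helper75.LatinC.redCount (p + 1) 1 : ℤ) -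
        Pool.Agent.Helper75.LatinC.redCount (p + 1) (-1)) :=
    Pool.Agent.Helper75.LatinC.redCount_odd p hev
  have h3 : ((Pool.Agent.Helper75.LatinC.redCount (p + 1) 1 : ℤ) -
        Pool.Agent.Helper75.LatinC.redCount (p + 1) (-1)) ≡ (-1) ^ ((p + 1) / 2) [ZMOD p] := by
    rw [← ZMod.intCast_eq_intCast_iff]
    have h4 : ((((-1 : ℤ)) ^ ((p + 1) / 2) : ℤ) : ZMod p) = (-1) ^ ((p + 1) / 2) := by
      push_cast; rfl
    rw [h4]
    exact Pool.Agent.Helper60.Latin.redCount_succ h2
  have hf : (p.factorial : ℤ) ≠ 0 := by exact_mod_cast p.factorial_ne_zero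
  constructor
  · rw [h1, mul_comm (p.factorial : ℤ)]
    exact h3.mul_right' 
  · intro heq
    rw [heq, sub_self] at h1
    have h5 : ((Pool.Agent.Helper75.LatinC.redCount (p + 1) 1 : ℤ) -
        Pool.Agent.Helper75.LatinC.redCount (p + 1) (-1)) = 0 := by
      rcases mul_eq_zero.mp h1.symm with h6 | h6
      · exact absurd h6 hf
      · exact h6
    rw [h5] at h3
    have h7 : ((p : ℤ)) ∣ (-1) ^ ((p + 1) / 2) := Int.modEq_zero_iff_dvd.mp h3.symm
    have h8 : ((p : ℤ)) ∣ 1 := by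
      rcases neg_one_pow_eq_or ℤ ((p + 1) / 2) with h6 | h6
      · rwa [h6] at h7
      · rw [h6] at h7
        exact dvd_neg.mp h7
    have h9 : p ∣ 1 := by exact_mod_cast h8
    have := Nat.dvd_one.mp h9
    exact hp.one_lt.ne' this

end Pool.Agent.Results.MP_90e87d_co.PrimePlusTwo
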